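import Pool.Agent.H247.VE.Stm

/-!
# Density of the periodic points in an isolated part of the chain recurrent set (helper887)
-/

set_option autoImplicit false

open Set Filter Topology Metric

universe u

namespace Pool.Agent.H887.VEPD2

open Pool.Agent.H247.SD Pool.Agent.H247.VE
open Pool.Agent.R774.OS (CR)
open Pool.Agent.Q182.MC (ChainTo cls)

/-- periodic points are chain recurrent -/
theorem per_CR {X : Type u} [MetricSpace X] [CompactSpace X] (G : X → X) (y : X) (p : ℕ)
    (hp : 1 ≤ p) (h : G^[p] y = y) : y ∈ CR G := by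
  rw [Pool.Agent.R774.OS.mem_CR]
  intro δ hδ
  refine ⟨p, fun j => G^[j] y, hp, rfl, fun j => ?_, fun j => ?_⟩
  · show G^[j + p] y = G^[j] y
    rw [Function.iterate_add_apply, h]
  · show dist (G (G^[j] y)) (G^[j + 1] y) < δ
    rw [Function.iterate_succ_apply', dist_self]
    exact hδ

/-- chain recurrent points are in their chain class -/
theorem self_cls {X : Type u} [MetricSpace X] [CompactSpace X] (G : X → X) (a : X)
    (ha : a ∈ CR G) : a ∈ cls G univ a := by
  have h1 : ChainTo G univ a a := by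
    rw [Pool.Agent.Q182.MC.chainTo_iff]
    intro ε hε
    rw [Pool.Agent.R774.OS.mem_CR] at ha
    obtain ⟨m, x, hm, h0, hper, hd⟩ := ha ε hε
    have key : ∀ j : ℕ, Relation.TransGen (Pool.Agent.Q182.MC.R G univ ε) (x 0) (x (j + 1)) := by
      intro j
      induction j with
      | zero => exact Relation.TransGen.single ⟨mem_univ _, mem_univ _, hd 0⟩
      | succ j ih => exact ih.tail ⟨mem_univ _, mem_univ _, hd (j + 1)⟩
    have h2 := key (m - 1)
    have e : m - 1 + 1 = 0 + m := by omega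
    rw [e, hper 0, h0] at h2
    exact h2
  exact ⟨h1, h1⟩

theorem main (hCC2 : S_CC2.{u}) : S_PD2.{u} := by
  intro X _ _ G K hK hSh a ha
  rw [Metric.mem_closure_iff]
  intro ε hε
  obtain ⟨s, hs, hball⟩ := Metric.isOpen_iff.1 hK.cl'.isOpen_compl a (fun h => h.2 ha)
  obtain ⟨δ, hδ, hsh⟩ := hSh (min ε s) (lt_min hε hs)
  obtain ⟨p, x, k, hp, hper, hxK, hj, hx0, -⟩ :=
    hCC2 X G K hK a ha a (self_cls G a (hK.sub ha)) δ hδ
  obtain ⟨y, hy, hyx⟩ := hsh p x hp hper hxK hj
  have h0 : dist y a < min ε s := by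
    have h1 := hyx 0
    rw [hx0] at h1
    exact h1
  have hyCR : y ∈ CR (G : X → X) := per_CR G y p hp hy
  refine ⟨y, ⟨?_, p, hp, hy⟩, ?_⟩
  · by_contra hyK
    exact hball (Metric.mem_ball.2 (h0.trans_le (min_le_right _ _))) ⟨hyCR, hyK⟩
  · rw [dist_comm]
    exact h0.trans_le (min_le_left _ _)

end Pool.Agent.H887.VEPD2
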